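import Pool.Agent.Lib.MP_49fa77_co.H30.Iface

/-!
# AR: triangles with circumradius at most one
-/

set_option autoImplicit false

namespace FT58.AS.H36

open Real FT58

lemma sin3 {A B C : ℝ} (hA : 0 < A) (hB : 0 < B) (hC : 0 < C) (h : A + B + C = π) :
    sin A * sin B * sin C ≤ 3 * √3 / 8 := by
  have hA' : A < π := by linarith
  have hB' : B < π := by linarith
  have hC' : C < π := by linarith
  have sC : 0 < sin C := sin_pos_of_pos_of_lt_pi hC hC'
  have h1 : sin A * sin B ≤ (1 + cos C) / 2 := by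
    have e1 : cos (A - B) = cos A * cos B + sin A * sin B := cos_sub A B
    have e2 : cos (A + B) = cos A * cos B - sin A * sin B := cos_add A B
    have e3 : cos (A + B) = -cos C := by
      rw [show A + B = π - C by linarith, cos_pi_sub]
    have e4 : cos (A - B) ≤ 1 := cos_le_one _
    linarith
  have h2 : sin A * sin B * sin C ≤ (1 + cos C) / 2 * sin C := by gcongr
  have h3 : (1 + cos C) / 2 * sin C ≤ 3 * √3 / 8 := by
    have hs : sin C ^ 2 = 1 - cos C ^ 2 := by
      have := sin_sq_add_cos_sq C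
      linarith
    have h33 : √3 ^ 2 = 3 := sq_sqrt (by norm_num)
    have hc : -1 ≤ cos C := neg_one_le_cos C
    have hc1 : cos C ≤ 1 := cos_le_one C
    refine abs_le_of_sq_le_sq' ?_ (by positivity) |>.2
    have e : ((1 + cos C) / 2 * sin C) ^ 2 = (1 + cos C) ^ 2 / 4 * (1 - cos C ^ 2) := by
      rw [← hs]; ring
    have e' : (3 * √3 / 8) ^ 2 = 27 / 64 := by
      rw [div_pow, mul_pow, h33]; norm_num
    rw [e, e']
    have q : 0 ≤ (cos C - 1 / 2) ^ 2 * (cos C ^ 2 + 3 * cos C + 11 / 4) := by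
      apply mul_nonneg (sq_nonneg _)
      nlinarith [sq_nonneg (cos C + 3 / 2)]
    nlinarith [q]
  linarith

theorem ar_st : ArS := by
  intro x y z hX hR
  have hX2 : 0 < XX y z x := by rw [XX_cyc]; exact hX
  have hX3 : 0 < XX z x y := by rw [XX_cyc]; exact hX2
  have r2 := RR_sin hX2
  have r3 := RR_sin hX3
  rw [RR_cyc] at r2
  rw [RR_cyc, RR_cyc] at r3
  have s1 := sin_an hX
  obtain ⟨h1, h2, h3⟩ := ne_of_XX_pos hX
  have n1 : 0 < ‖x - z‖ := by rw [norm_pos_iff, sub_ne_zero]; exact Ne.symm h3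
  have n2 : 0 < ‖y - z‖ := by rw [norm_pos_iff, sub_ne_zero]; exact h2
  have hR0 : 0 < RR x y z := RR_pos hX
  have hs := an_sum hX
  have hS := sin3 (an_pos x y z) (an_pos y z x) (an_pos z x y) (by linarith)
  have e : XX x y z = sin (an x y z) * (‖x - z‖ * ‖y - z‖) := by
    rw [s1]; field_simp
  rw [norm_sub_rev z y] at r2
  have e2 : XX x y z / 2 = 2 * RR x y z ^ 2 *
      (sin (an x y z) * sin (an y z x) * sin (an z x y)) := by
    have q2 : ‖y - z‖ = 2 * (RR x y z * sin (an y z x)) := by linarith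
    have q3 : ‖x - z‖ = 2 * (RR x y z * sin (an z x y)) := by linarith
    rw [q2, q3] at e
    nth_rewrite 1 [e]
    ring
  rw [e2]
  have hR2 : RR x y z ^ 2 ≤ 1 := by nlinarith
  have hP : 0 ≤ sin (an x y z) * sin (an y z x) * sin (an z x y) := by
    have a1 : 0 < sin (an x y z) := sin_pos_of_pos_of_lt_pi (an_pos _ _ _) (an_lt _ _ _)
    have a2 : 0 < sin (an y z x) := sin_pos_of_pos_of_lt_pi (an_pos _ _ _) (an_lt _ _ _)
    have a3 : 0 < sin (an z x y) := sin_pos_of_pos_of_lt_pi (an_pos _ _ _) (an_lt _ _ _)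
    positivity
  have h31 : 0 ≤ 3 * √3 / 8 := by positivity
  nlinarith [mul_le_mul hR2 hS hP (by norm_num)]

end FT58.AS.H36
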